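import Mathlib

set_option autoImplicit false

namespace Pool.Agent.Results.MP_96acc4_lc.BelowProducts

open Filter Cardinal

/-- The Rudin-Keisler order: `u` is the image of `v` under some map. -/
def RK {α β : Type} (u : Ultrafilter α) (v : Ultrafilter β) : Prop := ∃ f : β → α, v.map f = u

/-- The product of ultrafilters: `A ∈ prod v w` iff `{x | {y | (x, y) ∈ A} ∈ w} ∈ v`. -/
def prod {α β : Type} (v : Ultrafilter α) (w : Ultrafilter β) : Ultrafilter (α × β) :=
  v.bind (fun a => w.map (Prod.mk a))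

/-- The `(n+1)`-st cartesian power `K × (K × ( ... × K))`. -/
def Pow (K : Type) : ℕ → Type
  | 0 => K
  | n + 1 => K × Pow K n

/-- The iterated product `v 0 ⊗ (v 1 ⊗ ( ... ⊗ v n))`. -/
def iter {K : Type} : (n : ℕ) → (Fin (n + 1) → Ultrafilter K) → Ultrafilter (Pow K n)
  | 0, v => v 0
  | n + 1, v => prod (v 0) (iter n (fun i => v i.succ))

/-- `u` is nonprincipal. -/
def Nonprincipal (u : Ultrafilter ℕ) : Prop := ∀ n : ℕ, u ≠ pure n

/-- `u` is a weak `P_{κ^+}`-point: it is nonprincipal and not in the closure of any set of at most `κ`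
nonprincipal ultrafilters different from `u`. -/
def WeakP (κ : Cardinal.{0}) (u : Ultrafilter ℕ) : Prop :=
  Nonprincipal u ∧ ∀ F : Set (Ultrafilter ℕ), (∀ w ∈ F, Nonprincipal w ∧ w ≠ u) → #F ≤ κ →
    u ∉ closure F

theorem mem_prod {α β : Type} {v : Ultrafilter α} {w : Ultrafilter β} {A : Set (α × β)} :
    A ∈ prod v w ↔ {x | {y | (x, y) ∈ A} ∈ w} ∈ v := Iff.rfl

/-- The case of two factors; only the first one is on a set of size at most `κ`. -/
theorem two {K Y : Type} (u : Ultrafilter ℕ) (hu : WeakP #K u) (v : Ultrafilter K)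
    (w : Ultrafilter Y) (h : RK u (prod v w)) : RK u v ∨ RK u w := by
  classical
  obtain ⟨f, hf⟩ := h
  let U : K → Ultrafilter ℕ := fun x => w.map (fun y => f (x, y))
  have hlim : ∀ A : Set ℕ, A ∈ u ↔ {x | A ∈ U x} ∈ v := by
    intro A
    rw [← hf]
    rfl
  by_cases h1 : ∃ x, U x = u
  · obtain ⟨x, hx⟩ := h1
    exact Or.inr ⟨_, hx⟩
  push Not at h1
  left
  let X1 : Set K := {x | Nonprincipal (U x)}
  have hX1 : X1 ∉ v := by
    intro hX
    have hcard : #(U '' X1) ≤ #K := by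
      refine (Cardinal.mk_image_le).trans (Cardinal.mk_set_le _)
    have hcl := hu.2 (U '' X1) (by
      rintro _ ⟨x, hx, rfl⟩
      exact ⟨hx, h1 x⟩) hcard
    rw [ultrafilterBasis_is_basis.mem_closure_iff] at hcl
    push Not at hcl
    obtain ⟨o, ⟨A, rfl⟩, hA, hemp⟩ := hcl
    have h2 : {x | A ∈ U x} ∈ v := (hlim A).1 hA
    obtain ⟨x, hx1, hx2⟩ := v.nonempty_of_mem (Filter.inter_mem hX h2)
    have : U x ∈ {w : Ultrafilter ℕ | A ∈ w} ∩ U '' X1 := ⟨hx2, x, hx1, rfl⟩
    rw [hemp] at this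
    exact this
  have hX1c : X1ᶜ ∈ v := Ultrafilter.compl_mem_iff_notMem.2 hX1
  have hg : ∀ x : K, ∃ n : ℕ, x ∈ X1ᶜ → U x = pure n := by
    intro x
    by_cases hx : x ∈ X1
    · exact ⟨0, fun h => absurd hx h⟩
    · have : ¬ ∀ n : ℕ, U x ≠ pure n := hx
      push Not at this
      obtain ⟨n, hn⟩ := this
      exact ⟨n, fun _ => hn⟩
  choose g hg using hg
  refine ⟨g, ?_⟩
  apply Ultrafilter.coe_injective
  ext A
  rw [Ultrafilter.mem_coe, Ultrafilter.mem_coe, hlim A]
  change g ⁻¹' A ∈ v ↔ _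
  constructor
  · intro h2
    refine Filter.mem_of_superset (Filter.inter_mem h2 hX1c) ?_
    rintro x ⟨hx1, hx2⟩
    change A ∈ U x
    rw [hg x hx2]
    exact hx1
  · intro h2
    refine Filter.mem_of_superset (Filter.inter_mem h2 hX1c) ?_
    rintro x ⟨hx1, hx2⟩
    change A ∈ U x at hx1
    rw [hg x hx2] at hx1
    exact hx1

/-- Let `κ` be an infinite cardinal, presented as the cardinality of an infinite type `K`. If a weak
`P_{κ^+}`-point `u` is Rudin-Keisler below `v 0 ⊗ ... ⊗ v n`, with all `v i` ultrafilters on `K`, then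
it is below some `v k`. -/
theorem result (K : Type) [Infinite K] (u : Ultrafilter ℕ) (hu : WeakP #K u) (n : ℕ)
    (v : Fin (n + 1) → Ultrafilter K) (h : RK u (iter n v)) : ∃ k, RK u (v k) := by
  induction n with
  | zero => exact ⟨0, h⟩
  | succ n ih =>
    rcases two u hu (v 0) (iter n (fun i => v i.succ)) h with h1 | h1
    · exact ⟨0, h1⟩
    · obtain ⟨k, hk⟩ := ih _ h1
      exact ⟨k.succ, hk⟩

end Pool.Agent.Results.MP_96acc4_lc.BelowProducts
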